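import Mathlib
import Pool.Agent.Helper140.TT1
import Pool.Agent.Helper140.TT5
import Pool.Agent.Helper140.TT11

set_option autoImplicit false

open Set Filter Topology
open Pool.Agent.Helper140.TT

namespace Pool.Agent.Results.MP_b71113_an.ConvexTube

variable {n : ℕ}

lemma D_mono {Ω Ω' : Set (Fin n → ℝ)} (h : Ω ⊆ Ω') (b : Fin n → ℝ) (σ : Fin n → ℤˣ) :
    D Ω b σ ⊆ D Ω' b σ := fun _ hz => ⟨h hz.1, hz.2⟩

lemma admissible_restrict {Ω Ω' : Set (Fin n → ℝ)} (h : Ω ⊆ Ω') {c : Fin n → ℝ}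
    {f : (Fin n → ℂ) → ℂ} {F : (Fin n → ℤˣ) → (Fin n → ℂ) → ℂ} (hF : Admissible Ω' c f F) :
    Admissible Ω c f F := by
  refine ⟨hF.hol.mono (iUnion_mono fun σ => D_mono h 0 σ),
    fun σ => (hF.cont σ).mono (closure_mono (D_mono h 0 σ)),
    fun σ => (hF.ext σ).mono (D_mono h 0 σ), ?_⟩
  obtain ⟨hk, h1, h2⟩ := hF.split
  refine ⟨hk, fun k => (h1 k).mono (iUnion_mono fun σ z hz => ⟨h hz.1, hz.2⟩), fun z hz => h2 z ?_⟩
  obtain ⟨σ, hσ⟩ := mem_iUnion.1 hz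
  exact mem_iUnion.2 ⟨σ, D_mono h c σ hσ⟩

lemma U_mono {Ω Ω' : Set (Fin n → ℝ)} (h : Ω ⊆ Ω') (c : Fin n → ℝ) : U Ω c ⊆ U Ω' c := by
  rintro x ⟨W, ⟨hW, hWΩ, hWg⟩, hx⟩
  exact ⟨W, ⟨hW, hWΩ.trans h, fun f F hF => hWg f F (admissible_restrict h hF)⟩, hx⟩

/-- Two-sided bounds for U(Omega, c) for every open Omega, and its exact determination for every
convex open Omega. -/
theorem result (Ω : Set (Fin n → ℝ)) (hΩ : IsOpen Ω) (c : Fin n → ℝ) (hc : ∀ j, 0 < c j) :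
    Ω ∩ interior (closure (SepHol Ω c)) ⊆ U Ω c ∧
    U Ω c ⊆ interior (closure (SepPoly (convexHull ℝ Ω) c)) ∧
    (Convex ℝ Ω → U Ω c = Ω ∩ interior (closure (SepPoly Ω c))) ∧
    (Convex ℝ Ω → Bornology.IsBounded Ω → U Ω c = Ω ∩ interior (closure
      {x | x ∈ Ω ∧ (fun j => (x j : ℂ)) ∉ polyHull (tubeBox (frontier Ω) c)})) := by
  refine ⟨subset_U_of_sepHol hΩ hc, ?_, fun h => U_eq_convex hΩ h hc,
    fun h hb => U_eq_convex_bounded hΩ h hb hc⟩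
  have h1 : IsOpen (convexHull ℝ Ω) := hΩ.convexHull
  refine (U_isOpen Ω c).subset_interior_iff.2 ?_
  exact (U_mono (subset_convexHull ℝ Ω) c).trans
    (U_subset_closure_sepPoly h1 (convex_convexHull ℝ Ω) hc)

end Pool.Agent.Results.MP_b71113_an.ConvexTube
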